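import Pool.Agent.H706.NC.Final

set_option autoImplicit false

/-!
# Circuits without constant terms for the product of two `m × m` matrices: at least
`(14 - o(1)) m²` gates

Circuits (`Circuit`, `Circuit.poly`, `Circuit.size`) are defined in `Pool.Agent.H522R2.Circuit`,
the variables `Vars m` and the entries `entry F m i j` of the product of two generic `m × m`
matrices in `Pool.Agent.H88R3.MM.Circ`.

The idea of the proof. Let `H` be the matrix with one column for every gate `g` (entries: `1` in
the row of `g`, minus the coefficients with which the parts of degree one and two of the operands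
enter) and one row for every gate and every variable. The vectors in the left kernel are the values
of the linear parts at a point, and the vectors in the right kernel of the rows which are not
outputs are the derivatives of the combinations of the outputs with respect to the gates. Both are
codes, of dimensions `2 m²` and `m²`, with large distance; all columns of `H` have at most three
entries, and one column can serve both codes. A counting argument for both codes together, with a
basis of the rows of the live part which prefers the long rows, gives `8 m²`.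
-/

namespace Pool.Agent.Results.MP_e72dc0_lc.ConstantTerms

open Pool.Agent.H88R3.MM Pool.Agent.H522R2

/-- Up to constants and terms of degree at least three, the circuit has the entries of the product
of two generic `m × m` matrices among the polynomials which it computes. -/
def Computes {F : Type*} [Field F] {m : ℕ} (C : Circuit F (Vars m)) : Prop :=
  ∀ i j, ∃ k : Fin C.nodes, MvPolynomial.homogeneousComponent 1 (C.poly k) = 0 ∧
    MvPolynomial.homogeneousComponent 2 (C.poly k) = entry F m i j

/-- every node computes a constant or a polynomial without constant term -/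
def NoConstantTerms {F : Type*} [Field F] {m : ℕ} (C : Circuit F (Vars m)) : Prop :=
  ∀ v : Fin C.nodes, MvPolynomial.constantCoeff (C.poly v) ≠ 0 → ∃ c, C.poly v = MvPolynomial.C c

/-- the polynomial has a nonzero part of degree `k` -/
def Has {F : Type*} [Field F] {m : ℕ} (k : ℕ) (P : MvPolynomial (Vars m) F) : Prop :=
  MvPolynomial.homogeneousComponent k P ≠ 0

/-- the number of `+` gates -/
noncomputable def additions {F : Type*} [Field F] {m : ℕ} (C : Circuit F (Vars m)) : ℕ :=
  Nat.card {v : Fin C.nodes // ∃ i j, C.gate v = Gate.add i j}

/-- The number of the `×` gates both of whose factors have a nonzero linear part and exactly one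
of whose factors has a nonzero constant term. -/
noncomputable def half {F : Type*} [Field F] {m : ℕ} (C : Circuit F (Vars m)) : ℕ :=
  Nat.card {v : Fin C.nodes // ∃ i j, C.gate v = Gate.mul i j ∧
    Has 1 (C.poly (C.up v i)) ∧ Has 1 (C.poly (C.up v j)) ∧
    ¬ (Has 0 (C.poly (C.up v i)) ↔ Has 0 (C.poly (C.up v j)))}

/-- The number of the `×` gates both of whose factors have a nonzero constant term and a nonzero
part of degree `1` or `2`. -/
noncomputable def full {F : Type*} [Field F] {m : ℕ} (C : Circuit F (Vars m)) : ℕ :=
  Nat.card {v : Fin C.nodes // ∃ i j, C.gate v = Gate.mul i j ∧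
    (Has 1 (C.poly (C.up v i)) ∨ Has 2 (C.poly (C.up v i))) ∧
    (Has 1 (C.poly (C.up v j)) ∨ Has 2 (C.poly (C.up v j))) ∧
    Has 0 (C.poly (C.up v i)) ∧ Has 0 (C.poly (C.up v j))}

/-- The entries of the product of two `m × m` matrices are linear combinations of `t` products of
two linear forms. -/
def Suffice (F : Type*) [Field F] (m t : ℕ) : Prop :=
  ∃ p q : Fin t → MvPolynomial (Vars m) F, (∀ s, (p s).IsHomogeneous 1) ∧
    (∀ s, (q s).IsHomogeneous 1) ∧
    ∀ i j, entry F m i j ∈ Submodule.span F (Set.range fun s => p s * q s)

/-- the least number of products of two linear forms whose linear combinations contain all entries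
of the product of two generic `m × m` matrices -/
noncomputable def quad (F : Type*) [Field F] (m : ℕ) : ℕ := sInf {t | Suffice F m t}

universe u

/-- Let `δ > 0` and `K` be given, let `m` be large, and let `C` be a circuit over any field which
computes the product of two generic `m × m` matrices up to constants and terms of degree `≥ 3`.

(1) If in `C` only constants have constant terms then `C` has at least `(14 - δ) m ^ 2` gates, and
at least `(8 - δ) m ^ 2 + quad F m` addition gates if it has at most `K m ^ 2` gates.

(2) In general these bounds hold if one adds to the numbers of gates and of addition gates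
`half C + 2 * full C`, the number of the products in which exactly one factor has a constant term
plus twice the number of those in which both factors have one. If one adds `full C` only, the
bounds are `(11 - δ) m ^ 2` and `(8 - δ) m ^ 2`.

Here `quad F m`, the least number of products of two linear forms which span the entries of the
product, is at least `(3 - δ) m ^ 2`. -/
theorem result (δ : ℝ) (hδ : 0 < δ) (K : ℝ) : ∃ m₀ : ℕ, ∀ (F : Type u) [Field F] (m : ℕ)
    (C : Circuit F (Vars m)), m₀ ≤ m → Computes C →
    -- circuits without constant terms
    (NoConstantTerms C → (14 - δ) * (m : ℝ) ^ 2 ≤ C.size ∧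
      ((C.size : ℝ) ≤ K * (m : ℝ) ^ 2 → (8 - δ) * (m : ℝ) ^ 2 + quad F m ≤ additions C)) ∧
    -- all circuits: the number of gates
    (14 - δ) * (m : ℝ) ^ 2 ≤ C.size + half C + 2 * full C ∧
    (11 - δ) * (m : ℝ) ^ 2 ≤ C.size + full C ∧
    -- all circuits: the number of additions
    ((C.size : ℝ) ≤ K * (m : ℝ) ^ 2 →
      (8 - δ) * (m : ℝ) ^ 2 + quad F m ≤ additions C + half C + 2 * full C ∧
      (8 - δ) * (m : ℝ) ^ 2 ≤ additions C + full C) ∧
    (3 - δ) * (m : ℝ) ^ 2 ≤ quad F m := by
  obtain ⟨m₁, h₁⟩ := Pool.Agent.H706.NC.small.{u} δ hδ K
  obtain ⟨m₂, h₂⟩ := Pool.Agent.H706.NC.size_all.{u} δ hδ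
  obtain ⟨m₃, h₃⟩ := Pool.Agent.H706.HC.quad_lower.{u} δ hδ
  refine ⟨max m₁ (max m₂ m₃), fun F _ m C hm hC => ?_⟩
  have hadd : Pool.Agent.H706.HC.addCount C = additions C := rfl
  have hhalf : Pool.Agent.H706.NC.halfCount C = half C := rfl
  have hfull : Pool.Agent.H706.NC.fullCount C = full C := rfl
  have hquad : Pool.Agent.H706.HC.quad F m = quad F m := rfl
  have e1 := h₁ F m C (le_trans (le_max_left _ _) hm) hC
  have e2 := h₂ F m C (le_trans ((le_max_left _ _).trans (le_max_right _ _)) hm) hC
  have e3 := h₃ F m (le_trans ((le_max_right _ _).trans (le_max_right _ _)) hm)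
  rw [hadd, hhalf, hfull, hquad] at e1
  rw [hhalf, hfull] at e2
  rw [hquad] at e3
  have e4 : (C.size : ℝ) ≤ K * (m : ℝ) ^ 2 →
      (8 - δ) * (m : ℝ) ^ 2 + quad F m ≤ additions C + half C + 2 * full C ∧
      (8 - δ) * (m : ℝ) ^ 2 ≤ additions C + full C := by
    intro hs
    obtain ⟨z, k1, _, k3⟩ := e1 hs
    have k1' : (quad F m : ℝ) ≤ z + half C + full C := by exact_mod_cast k1
    have h7 : (0 : ℝ) ≤ z := Nat.cast_nonneg _
    constructor <;> linarith
  refine ⟨fun hN => ?_, e2.2, e2.1, e4, e3⟩
  have a0 := Pool.Agent.H706.NC.half_zero hN
  have b0 := Pool.Agent.H706.NC.full_zero hN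
  rw [hhalf] at a0
  rw [hfull] at b0
  rw [a0, b0] at e2 e4
  simp only [Nat.cast_zero, mul_zero, add_zero] at e2 e4
  exact ⟨e2.2, fun hs => (e4 hs).1⟩

end Pool.Agent.Results.MP_e72dc0_lc.ConstantTerms
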