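import Pool.Agent.H703.FF.Circ

set_option autoImplicit false

/-!
# Matrix multiplication over finite fields, as a function

Over a finite field it is a weaker requirement to compute the function `(A, B) ↦ A B` than to compute
its polynomials: a program may use `x ^ q = x`, quotients, tests and arbitrary functions of one
element, and it may be wrong for some pairs of matrices. The bounds for products over finite fields
(`3 m ^ 2 - o(m ^ 2)` over `F₂`, `(2.5 + ε) m ^ 2 - o(m ^ 2)` over `F_q`) are bounds for the
polynomials; for the function a program needs at least the dimension `m ^ 2` of the space of the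
forms. Here the constant `1` is improved to `5 / 4` for every finite field and to `3 / 2` for `F₂`,
for steps `a φ(b) + ψ(b)` with arbitrary functions `φ`, `ψ` and for random programs which may be wrong
with a constant probability. `Steps`, `Pairs`, `affine`, `Computes` and `success` are defined in
`Pool.Agent.H703.FF.Defs`, `point` and `outputs` (the function given by a circuit) in
`Pool.Agent.H703.FF.Circ`, and `Circuit`, `nonscalarCount` in
`Pool.Graph.R_seed8.H522R2.Circuit`.
-/

namespace Pool.Agent.Results.MP_e72dc0_lc.FunctionsOverFiniteFields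

open Pool.Agent.H703.FF Pool.Agent.H522R2

/-- Let `K` be a finite field.
(1) Let a random program with at most `t` steps (a step is `a φ(b 1, …, b k) + ψ(b 1, …, b k)` with
arbitrary functions `φ ψ : K ^ k → K`, linear combinations are free) compute the product of two
uniformly random `m × m` matrices with probability at least `2 / 3`. Then
`t + 1 ≥ m ^ 2 + (m - 1) ^ 2 / (4 k ^ 2)`.
(2) If `|K| = 2`, `k = 1` and the probability is greater than `11 / 12` then `t ≥ (3 m ^ 2 - 1) / 2`.
(3) If the polynomials at the nodes `v i j` of an arithmetic circuit `C` over `K` give the entries of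
the product for at least `2 / 3` of all pairs of matrices then the circuit has at least
`(5 m ^ 2 - 2 m - 3) / 4` nonscalar multiplications.
(4) If `|K| = 2` and they do so for more than `11 / 12` of all pairs of matrices then there are at
least `(3 m ^ 2 - 1) / 2` nonscalar multiplications. -/
theorem result (K : Type) [Field K] [Fintype K] (m : ℕ) :
    (∀ (k t : ℕ) (Ω : Type) [Fintype Ω] (w : Ω → ℝ)
      (F : Ω → Pairs K m → Matrix (Fin m) (Fin m) K),
      1 ≤ k → (∀ ω, 0 ≤ w ω) → ∑ ω, w ω = 1 → (∀ ω, Computes k t (F ω)) → 2 / 3 ≤ success w F →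
      4 * k ^ 2 * m ^ 2 + (m - 1) ^ 2 ≤ 4 * k ^ 2 * (t + 1)) ∧
    (∀ (t : ℕ) (Ω : Type) [Fintype Ω] (w : Ω → ℝ)
      (F : Ω → Pairs K m → Matrix (Fin m) (Fin m) K),
      Fintype.card K = 2 → (∀ ω, 0 ≤ w ω) → ∑ ω, w ω = 1 → (∀ ω, Computes 1 t (F ω)) →
      11 / 12 < success w F → 3 * m ^ 2 ≤ 2 * t + 1) ∧
    (∀ (C : Circuit K ((Fin m × Fin m) ⊕ (Fin m × Fin m))) (v : Fin m → Fin m → Fin C.nodes),
      2 * Nat.card (Pairs K m) ≤ 3 * Nat.card {x : Pairs K m // outputs C v x = x.1 * x.2} →
      5 * m ^ 2 ≤ 4 * C.nonscalarCount + 2 * m + 3) ∧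
    (∀ (C : Circuit K ((Fin m × Fin m) ⊕ (Fin m × Fin m))) (v : Fin m → Fin m → Fin C.nodes),
      Fintype.card K = 2 →
      11 * Nat.card (Pairs K m) < 12 * Nat.card {x : Pairs K m // outputs C v x = x.1 * x.2} →
      3 * m ^ 2 ≤ 2 * C.nonscalarCount + 1) := by
  classical
  have h1 : ∀ (k t : ℕ) (Ω : Type) [Fintype Ω] (w : Ω → ℝ)
      (F : Ω → Pairs K m → Matrix (Fin m) (Fin m) K),
      1 ≤ k → (∀ ω, 0 ≤ w ω) → ∑ ω, w ω = 1 → (∀ ω, Computes k t (F ω)) → 2 / 3 ≤ success w F →
      4 * k ^ 2 * m ^ 2 + (m - 1) ^ 2 ≤ 4 * k ^ 2 * (t + 1) := by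
    intro k t Ω _ w F hk hw hw1 hF hs
    obtain ⟨ω, hω⟩ := exists_program w hw hw1 F
    exact bound_all hk (hF ω) (by linarith)
  have h2 : ∀ (t : ℕ) (Ω : Type) [Fintype Ω] (w : Ω → ℝ)
      (F : Ω → Pairs K m → Matrix (Fin m) (Fin m) K),
      Fintype.card K = 2 → (∀ ω, 0 ≤ w ω) → ∑ ω, w ω = 1 → (∀ ω, Computes 1 t (F ω)) →
      11 / 12 < success w F → 3 * m ^ 2 ≤ 2 * t + 1 := by
    intro t Ω _ w F hK hw hw1 hF hs
    obtain ⟨ω, hω⟩ := exists_program w hw hw1 F
    exact bound_two hK (hF ω) (by linarith)
  have hpos : (0 : ℝ) < (Nat.card (Pairs K m) : ℝ) := by exact_mod_cast Nat.card_pos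
  refine ⟨h1, h2, fun C v hC => ?_, fun C v hK hC => ?_⟩
  · have h3 := h1 1 C.nonscalarCount Unit (fun _ => 1) (fun _ => outputs C v) le_rfl
      (fun _ => zero_le_one) (by simp) (fun _ => computes_circuit C v) (by
        have h4 : (2 : ℝ) * (Nat.card (Pairs K m) : ℝ) ≤
            3 * (Nat.card {x : Pairs K m // outputs C v x = x.1 * x.2} : ℝ) := by exact_mod_cast hC
        simp only [success, Finset.univ_unique, Finset.sum_const, Finset.card_singleton, one_smul,
          one_mul]
        rw [div_le_div_iff₀ (by norm_num) hpos]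
        linarith)
    rcases m with - | n
    · omega
    · rw [Nat.add_sub_cancel] at h3
      nlinarith
  · exact h2 C.nonscalarCount Unit (fun _ => 1) (fun _ => outputs C v) hK
      (fun _ => zero_le_one) (by simp) (fun _ => computes_circuit C v) (by
        have h4 : (11 : ℝ) * (Nat.card (Pairs K m) : ℝ) <
            12 * (Nat.card {x : Pairs K m // outputs C v x = x.1 * x.2} : ℝ) := by exact_mod_cast hC
        simp only [success, Finset.univ_unique, Finset.sum_const, Finset.card_singleton, one_smul,
          one_mul]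
        rw [div_lt_div_iff₀ (by norm_num) hpos]
        linarith)

end Pool.Agent.Results.MP_e72dc0_lc.FunctionsOverFiniteFields
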