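import Pool.Agent.H676.MM.Main

set_option autoImplicit false

/-! # Matrices with entries in a finite-dimensional algebra

Let `C` be a nonzero finite-dimensional associative algebra with unit over the field `K`. How many
multiplications in `C` are needed for the product of two `m × m` matrices with entries in `C`, if
arbitrary `K`-linear maps are free? Let `minMul K m` be the least number, over all such `C`. It is
at least `m ^ 2 + 1` for all `m ≥ 2`, and the circuit size of matrix multiplication over `K` is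
superlinear in `m ^ 2` if and only if `minMul K m ≥ m ^ 2 + 2` for one single `m ≥ 2`. It determines
`m ^ ω` up to one: an algorithm over some `C` can be iterated, and conversely the algebra
`∏_{i < k} M_{m^i}(K)^{r^(k-1-i)}` turns an algorithm for matrices of size `m ^ k` with `r ^ k`
multiplications in `K` into one for matrices of size `m` with `r` multiplications in the algebra. -/

namespace Pool.Agent.Results.MP_e72dc0_lc.MatricesOverAlgebras

open Pool.Agent.H676.MM Pool.Agent.W956.KF Pool.Agent.Helper16K9.Fast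

/-- Let `K` be a field.

1. Let `m ≥ 1`. If over some nonzero finite-dimensional algebra `C` the product of two `m × m`
   matrices can be computed with `r` multiplications in `C`, then `m ^ ω ≤ r`. Conversely, for
   `r > m ^ ω` this is possible with a product `C` of full matrix algebras. Hence
   `m ^ ω ≤ minMul K m ≤ m ^ ω + 1`.
2. `minMul K m ≥ m ^ 2 + 1` for `m ≥ 2`.
3. The circuit size is superlinear if and only if `minMul K m ≥ m ^ 2 + 2` for some `m ≥ 2`.
4. The circuit size is nearly linear if and only if `minMul K m = m ^ 2 + 1` for all `m ≥ 2`.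
5. Either `minMul K m = m ^ 2 + 1` for all `m ≥ 2` or `minMul K m ≥ (m ^ 2) ^ α` for all `m ≥ 1`, with
   some `α > 1`.
6. For every `m ≥ 2` the number `minMul K m` gives bounds for all sizes `n`: at least
   `n ^ (log_m (minMul K m - 1)) / 2` nonscalar multiplications are needed, and circuits of size
   `O(n ^ τ)` exist for all `τ > log_m (minMul K m)`.
7. `minMul K 2` is `5` or `6`. If it is `5` then there are circuits of size `O(n ^ τ)` for all
   `τ > log_2 5`; if it is `6` then the size is at least `n ^ (log_2 5) / 2`. Moreover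
   `10 ≤ minMul K 3 ≤ 16`.
8. The dimension has to be finite: one multiplication in the algebra of endomorphisms of a vector
   space of countable dimension suffices for all `m ≥ 1`. -/
theorem result (K : Type) [Field K] :
    (∀ m : ℕ, 1 ≤ m →
      (∀ (C : Type) [Ring C] [Algebra K C] [FiniteDimensional K C] [Nontrivial C] (r : ℕ),
        Multiplies K C m r → (m : ℝ) ^ omega K ≤ r) ∧
      (∀ r : ℕ, (m : ℝ) ^ omega K < r → ∃ k : ℕ, 0 < k ∧ Multiplies K (Cat K m r k) m r) ∧
      (m : ℝ) ^ omega K ≤ minMul K m ∧ (minMul K m : ℝ) ≤ (m : ℝ) ^ omega K + 1) ∧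
    (∀ m : ℕ, 2 ≤ m → m ^ 2 + 1 ≤ minMul K m) ∧
    (Superlinear (sizeMM K) ↔ ∃ m : ℕ, 2 ≤ m ∧ m ^ 2 + 2 ≤ minMul K m) ∧
    ((∀ α : ℝ, 1 < α → ∃ D : ℝ, ∀ m : ℕ, (sizeMM K m : ℝ) ≤ D * ((m : ℝ) ^ 2) ^ α) ↔
      ∀ m : ℕ, 2 ≤ m → minMul K m = m ^ 2 + 1) ∧
    ((∀ m : ℕ, 2 ≤ m → minMul K m = m ^ 2 + 1) ∨
      ∃ α : ℝ, 1 < α ∧ ∀ m : ℕ, 1 ≤ m → ((m : ℝ) ^ 2) ^ α ≤ minMul K m) ∧
    (∀ m : ℕ, 2 ≤ m →
      (∀ n : ℕ, 1 ≤ n → (n : ℝ) ^ Real.logb m ((minMul K m : ℝ) - 1) ≤ 2 * mulMM K n ∧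
        mulMM K n ≤ sizeMM K n) ∧
      ∀ τ : ℝ, Real.logb m (minMul K m) < τ →
        ∃ D : ℝ, ∀ n : ℕ, (sizeMM K n : ℝ) ≤ D * (n : ℝ) ^ τ) ∧
    (minMul K 2 = 5 ∨ minMul K 2 = 6) ∧
    (minMul K 2 = 5 → ∀ τ : ℝ, Real.logb 2 5 < τ →
      ∃ D : ℝ, ∀ n : ℕ, (sizeMM K n : ℝ) ≤ D * (n : ℝ) ^ τ) ∧
    (minMul K 2 = 6 → ∀ n : ℕ, 1 ≤ n → (n : ℝ) ^ Real.logb 2 5 ≤ 2 * sizeMM K n) ∧
    (10 ≤ minMul K 3 ∧ minMul K 3 ≤ 16) ∧
    ∀ m : ℕ, 1 ≤ m → Multiplies K (Module.End K (ℕ →₀ K)) m 1 :=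
  main K

end Pool.Agent.Results.MP_e72dc0_lc.MatricesOverAlgebras
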