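import Pool.Agent.H703.NL.Scale
import Pool.Agent.H703.NL.Scales

set_option autoImplicit false

/-!
# The size of circuits and the number of multiplications, scale by scale

Definitions: `sizeMM F m` is `S_F(MM_m)` (in `Pool.Graph.R_seed8.W956.KF.Defs`, for the circuits
`Circuit` of `Pool.Graph.R_seed8.H522R2.Circuit`); `mulMM F m` is the least number of nonscalar
multiplications of a circuit which computes `MM_m` (in `Pool.Agent.H703.NL.Sizes`); `PolyDense P`:
for some `C` every interval `[n, n ^ C]`, `n ≥ 2`, contains a `k` with `P k`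
(in `Pool.Agent.H703.NL.Engine`).

The exponents of the number of nonscalar multiplications `L(m)` and of the size `S(m)` agree. Here
the two functions are compared on finer scales, which is what the question asks for: linear in
`n = m ^ 2`, nearly linear, or `n ^ α`. The linear maps of a bilinear algorithm are applied to the
blocks by fast matrix multiplication: if the rank of the `k × k` problem is at most `c k ^ 2` then
`S(k ^ 2 t) ≤ c k ^ 2 S(k t) + 3 c t ^ 2 S(k ^ 2) + c k ^ 2 (k t) ^ 2`.

A result of the library (`Pool.Graph.R_pool_sql_team_seeded_5cf16337.Results.MP_f949a6_lc`,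
`AmortizedMultiplications`) gives `n ^ 2 (B G(n)) ^ (B log log n)` in place of the product in (1),
over infinite fields (there for probabilistic algorithms and amortized over many pairs). Here all
fields are allowed, and a size is charged only for the sizes `n ^ (q ^ i)` below it; this gives the
equivalence (2), which has no loss at all on the scales `exp ((log n) ^ θ)`.
-/

namespace Pool.Agent.Results.MP_e72dc0_lc.ScaleByScale

open Pool.Agent.W956.KF Pool.Agent.H703.NL

/-- Let `L(m)` be the least number of nonscalar multiplications and `S(m)` the least size of a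
circuit over the field `F` which computes the product of two generic `m × m` matrices.
(1) For every `D` there are constants `B ≥ 1` and `0 < q < 1` such that for every field `F`, finite or
infinite, and every nondecreasing `G ≥ 1`: if for every `x ≥ 2` there is a `k` with
`x ≤ k ≤ x ^ D` and `L(k) ≤ G(k) k ^ 2` then for all `n ≥ 2`
`S(n) ≤ B n ^ 2 ∏ i, (B G(n ^ (q ^ i)))`, where `i` runs over `0 ≤ i < B log log n`.
(2) For every field and every `θ > 0`: `L(k) ≤ c k ^ 2 exp (c (log k) ^ θ)` holds for some `c` and a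
polynomially dense set of `k` if and only if `S(n) ≤ C n ^ 2 exp (C (log n) ^ θ)` holds for some `C`
and all `n ≥ 1`. -/
theorem result :
    (∀ D : ℕ, ∃ B q : ℝ, 1 ≤ B ∧ 0 < q ∧ q < 1 ∧
      ∀ (F : Type) [Field F] (G : ℝ → ℝ), (∀ x, 1 ≤ G x) → Monotone G →
      (∀ x : ℕ, 2 ≤ x → ∃ k : ℕ, x ≤ k ∧ k ≤ x ^ D ∧ (mulMM F k : ℝ) ≤ G k * (k : ℝ) ^ 2) →
      ∀ n : ℕ, 2 ≤ n → (sizeMM F n : ℝ) ≤ B * (n : ℝ) ^ 2 *
        ∏ i ∈ Finset.range ⌈B * Real.log (Real.log n)⌉₊, (B * G ((n : ℝ) ^ (q ^ i)))) ∧
    (∀ (F : Type) [Field F] (θ : ℝ), 0 < θ →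
      ((∃ c : ℝ, PolyDense (fun k => (mulMM F k : ℝ) ≤
        c * (k : ℝ) ^ 2 * Real.exp (c * Real.log k ^ θ))) ↔
      ∃ C : ℝ, ∀ n : ℕ, 1 ≤ n → (sizeMM F n : ℝ) ≤
        C * (n : ℝ) ^ 2 * Real.exp (C * Real.log n ^ θ))) := by
  refine ⟨scale_by_scale, fun F _ θ hθ => ⟨?_, ?_⟩⟩
  · rintro ⟨c, hd⟩
    exact scale_stretched F θ c hθ hd
  · rintro ⟨C, hC⟩
    refine ⟨C, 1, fun n hn => ⟨n, le_rfl, by rw [pow_one], ?_⟩⟩
    exact le_trans (by exact_mod_cast mulMM_le_sizeMM F n) (hC n (by omega))

end Pool.Agent.Results.MP_e72dc0_lc.ScaleByScale
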